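import Pool.Agent.R546.RX.Main

/-!
# Continuously differentiable functions on compact plane sets are limits of rational functions
-/

set_option autoImplicit false

namespace Pool.Agent.Results.MP_dbc030_an.DOneInRX

open Filter Topology

/-- `R_0(X)`: the restrictions to `X` of rational functions without poles on `X`. -/
def R0 (X : Set ℂ) : Set C(X, ℂ) :=
  {r | ∃ p q : Polynomial ℂ, (∀ z ∈ X, q.eval z ≠ 0) ∧
    ∀ z : X, r z = p.eval (z : ℂ) / q.eval (z : ℂ)}

/-- `R(X)`: the uniform limits on `X` of functions in `R_0(X)`. -/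
def RX (X : Set ℂ) : Set C(X, ℂ) :=
  {f | ∀ ε : ℝ, 0 < ε → ∃ r ∈ R0 X, ∀ z : X, ‖f z - r z‖ < ε}

/-- `D^(1)(X)`: the continuous functions on `X` which have at every point `a` of `X` a derivative
`g a` along `X`, the function `g` being continuous on `X`. -/
def D1 (X : Set ℂ) : Set C(X, ℂ) :=
  {f | ∃ g : C(X, ℂ), ∀ a : X,
    Tendsto (fun z : X => (f z - f a) / ((z : ℂ) - (a : ℂ))) (𝓝[≠] a) (𝓝 (g a))}

/-- For every nonempty compact plane set `X` (perfect or not), `D^(1)(X)` is contained
in `R(X)`. -/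
theorem result (X : Set ℂ) (hX : IsCompact X) (hne : X.Nonempty) : D1 X ⊆ RX X := by
  classical
  rintro f ⟨g, hg⟩
  set F : ℂ → ℂ := fun z => if h : z ∈ X then f ⟨z, h⟩ else 0 with hF
  set G : ℂ → ℂ := fun z => if h : z ∈ X then g ⟨z, h⟩ else 0 with hG
  have hFv : ∀ z : X, F z = f z := fun z => by simp [hF]
  have hGv : ∀ z : X, G z = g z := fun z => by simp [hG]
  have hFc : ContinuousOn F X := by
    rw [continuousOn_iff_continuous_domRestrict]
    have : X.domRestrict F = f := funext hFv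
    rw [this]
    exact f.continuous
  have hGc : ContinuousOn G X := by
    rw [continuousOn_iff_continuous_domRestrict]
    have : X.domRestrict G = g := funext hGv
    rw [this]
    exact g.continuous
  have hd : ∀ z ∈ X, HasDerivWithinAt F (G z) X z := by
    intro a ha
    rw [hasDerivWithinAt_iff_tendsto_slope, Metric.tendsto_nhdsWithin_nhds]
    intro ε hε
    have h1 := hg ⟨a, ha⟩
    rw [Metric.tendsto_nhdsWithin_nhds] at h1
    obtain ⟨δ, hδ, h2⟩ := h1 ε hε
    refine ⟨δ, hδ, fun w hw hwa => ?_⟩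
    have h3 := h2 (x := ⟨w, hw.1⟩) (fun h => hw.2 (congrArg Subtype.val h)) hwa
    have h4 : slope F a w = (f ⟨w, hw.1⟩ - f ⟨a, ha⟩) / (w - a) := by
      rw [slope_def_field, ← hFv, ← hFv]
    rw [h4, show G a = g ⟨a, ha⟩ from hGv ⟨a, ha⟩]
    exact h3
  have h := R546.RX.apx_of_C1 hX hne hFc hGc hd
  intro ε hε
  obtain ⟨p, q, hq, hp⟩ := h (ε / 2) (by linarith)
  refine ⟨⟨fun z : X => p.eval (z : ℂ) / q.eval (z : ℂ), ?_⟩, ⟨p, q, hq, fun z => rfl⟩,
    fun z => ?_⟩
  · exact Continuous.div (p.continuous.comp continuous_subtype_val)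
      (q.continuous.comp continuous_subtype_val) fun z => hq z z.2
  · rw [← hFv]
    exact (hp z z.2).trans_lt (by linarith)

end Pool.Agent.Results.MP_dbc030_an.DOneInRX
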